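import Pool.Agent.J6H36.AR.Defs
import Pool.Agent.R779.FJ.Col
import Pool.Agent.Y812.SS.Wr
import Pool.Agent.Y529.FJ.Ext
import Pool.Agent.Y961.FJ.Perm

/-!
# Module FW of `Pool/Agent/J6H36/AR/Defs.lean`

Functions of finite range on a set with an action of a group in `C`.
-/

set_option autoImplicit false

namespace Pool.Agent.J6H94.AR

open Pool.Agent.Y462.SS (Closed Wr)
open Pool.Agent.Y110.FJ (ClosedE Realized)
open Pool.Agent.J6H36.AR
open Filter

/-! ### eventually periodic functions -/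

section per

variable {H : Type}

lemma per_mul {φ : ℤ → H} {p m : ℤ} (h : ∀ k, m ≤ k → φ (k + p) = φ k) (hp : 0 < p) (j : ℕ) :
    ∀ k, m ≤ k → φ (k + p * j) = φ k := by
  induction j with
  | zero => intro k _; simp
  | succ j ih =>
    intro k hk
    have h1 : k + p * ((j + 1 : ℕ) : ℤ) = (k + p * j) + p := by push_cast; ring
    have h2 : m ≤ k + p * j := by
      have : 0 ≤ p * j := by positivity
      linarith
    rw [h1, h _ h2, ih k hk]

lemma evper_top {φ : ℤ → H} {p : ℕ} (hp : 0 < p) {m : ℤ} (h : ∀ k, m ≤ k → φ (k + p) = φ k) :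
    ∃ F : ZMod p → H, ∀ᶠ k : ℤ in atTop, φ k = F (k : ZMod p) := by
  have : NeZero p := ⟨hp.ne'⟩
  refine ⟨fun r => φ (m + ((r - (m : ZMod p)).val : ℤ)), ?_⟩
  filter_upwards [eventually_ge_atTop m] with k hk
  have hp' : (0 : ℤ) < p := by exact_mod_cast hp
  have h1 : (((k : ZMod p) - (m : ZMod p)).val : ℤ) = (k - m) % p := by
    rw [← Int.cast_sub, ZMod.val_intCast]
  rw [h1]
  obtain ⟨j, hj⟩ : ∃ j : ℕ, (j : ℤ) = (k - m) / p :=
    ⟨((k - m) / p).toNat, Int.toNat_of_nonneg (Int.ediv_nonneg (by linarith) hp'.le)⟩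
  have h2 : k = (m + (k - m) % p) + p * j := by
    have := Int.emod_add_mul_ediv (k - m) p
    rw [hj]
    linarith
  have h3 := per_mul h hp' j (m + (k - m) % p) (by
    have := Int.emod_nonneg (k - m) hp'.ne'
    linarith)
  rw [← h2] at h3
  exact h3

lemma evper_bot {φ : ℤ → H} {p : ℕ} (hp : 0 < p) {m : ℤ} (h : ∀ k, k ≤ m → φ (k - p) = φ k) :
    ∃ F : ZMod p → H, ∀ᶠ k : ℤ in atBot, φ k = F (k : ZMod p) := by
  obtain ⟨F, hF⟩ := evper_top (φ := fun k => φ (-k)) hp (m := -m) (fun k hk => by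
    have h1 := h (-k) (by linarith)
    have h2 : -(k + (p : ℤ)) = -k - p := by ring
    simp only [h2, h1])
  refine ⟨fun r => F (-r), ?_⟩
  have h1 := tendsto_neg_atBot_atTop.eventually hF
  filter_upwards [h1] with k hk
  simp only [neg_neg] at hk
  rw [hk]
  push_cast
  rfl

end per

/-! ### the group of the eventually periodic elements -/

section el

variable (p : ℕ) (H : Type) [Group H]

/-- the subgroup of the `EPer p` elements -/
def EL : Subgroup (Wr ℤ H) where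
  carrier := {a | EPer p a}
  one_mem' := ⟨⟨0, fun k => by simp⟩, ⟨fun _ => 1, Eventually.of_forall fun k => rfl⟩,
    ⟨fun _ => 1, Eventually.of_forall fun k => rfl⟩⟩
  mul_mem' := by
    rintro a b ⟨⟨n, hn⟩, ⟨F, hF⟩, ⟨F', hF'⟩⟩ ⟨⟨n₁, hn₁⟩, ⟨F₁, hF₁⟩, ⟨F₁', hF₁'⟩⟩
    refine ⟨⟨n₁ + n, fun k => ?_⟩, ⟨fun r => F (r + (n₁ : ZMod p)) * F₁ r, ?_⟩,
      ⟨fun r => F' (r + (n₁ : ZMod p)) * F₁' r, ?_⟩⟩
    · rw [Wr.mul_p, Equiv.Perm.mul_apply, hn₁, hn]
      ring
    · filter_upwards [(tendsto_atTop_add_const_right atTop n₁ tendsto_id).eventually hF, hF₁]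
        with k h1 h2
      rw [Wr.mul_s, hn₁, h2]
      simp only [id] at h1
      rw [h1]
      push_cast
      rfl
    · filter_upwards [(tendsto_atBot_add_const_right atBot n₁ tendsto_id).eventually hF', hF₁']
        with k h1 h2
      rw [Wr.mul_s, hn₁, h2]
      simp only [id] at h1
      rw [h1]
      push_cast
      rfl
  inv_mem' := by
    rintro a ⟨⟨n, hn⟩, ⟨F, hF⟩, ⟨F', hF'⟩⟩
    have hinv : ∀ k, a.p⁻¹ k = k + (-n) := by
      intro k
      rw [Equiv.Perm.inv_eq_iff_eq, hn]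
      ring
    refine ⟨⟨-n, hinv⟩, ⟨fun r => (F (r + ((-n : ℤ) : ZMod p)))⁻¹, ?_⟩,
      ⟨fun r => (F' (r + ((-n : ℤ) : ZMod p)))⁻¹, ?_⟩⟩
    · filter_upwards [(tendsto_atTop_add_const_right atTop (-n) tendsto_id).eventually hF]
        with k h1
      rw [Wr.inv_s, hinv]
      simp only [id] at h1
      rw [h1]
      push_cast
      rfl
    · filter_upwards [(tendsto_atBot_add_const_right atBot (-n) tendsto_id).eventually hF']
        with k h1
      rw [Wr.inv_s, hinv]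
      simp only [id] at h1
      rw [h1]
      push_cast
      rfl

end el

/-! ### maps of finite range -/

lemma iter_per {X : Type} (F : X → X) (hF : (Set.range F).Finite) :
    ∃ m p : ℕ, 0 < p ∧ ∀ k, m ≤ k → ∀ x, F^[k + p] x = F^[k] x := by
  have hfin : Finite (Set.range F) := hF
  have hmaps : Set.MapsTo F (Set.range F) (Set.range F) := fun x _ => ⟨x, rfl⟩
  let G : ℕ → (Set.range F → Set.range F) := fun k => (hmaps.iterate k).restrict
  have key : ∃ i j, i < j ∧ G i = G j := by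
    obtain ⟨i, j, hij, h⟩ := Finite.exists_ne_map_eq_of_infinite G
    rcases Nat.lt_or_gt_of_ne hij with h1 | h1
    · exact ⟨i, j, h1, h⟩
    · exact ⟨j, i, h1, h.symm⟩
  obtain ⟨i, j, hij, h⟩ := key
  have h1 : ∀ x, F^[i + 1] x = F^[j + 1] x := by
    intro x
    have h2 := congrArg Subtype.val (congrFun h ⟨F x, x, rfl⟩)
    change F^[i] (F x) = F^[j] (F x) at h2
    rwa [← Function.iterate_succ_apply, ← Function.iterate_succ_apply] at h2
  refine ⟨i + 1, j - i, by omega, fun k hk x => ?_⟩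
  obtain ⟨l, rfl⟩ := Nat.exists_eq_add_of_le hk
  have e1 : i + 1 + l + (j - i) = l + (j + 1) := by omega
  have e2 : i + 1 + l = l + (i + 1) := by omega
  rw [e1, e2, Function.iterate_add_apply F l (j + 1), Function.iterate_add_apply F l (i + 1), h1]

lemma iter_per_mul {X : Type} {F : X → X} {m p : ℕ} (h : ∀ k, m ≤ k → ∀ x, F^[k + p] x = F^[k] x)
    (c k : ℕ) (hk : m ≤ k) (x : X) : F^[k + p * c] x = F^[k] x := by
  induction c with
  | zero => simp
  | succ c ih =>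
    have e1 : k + p * (c + 1) = (k + p * c) + p := by ring
    rw [e1, h _ (by omega), ih]

/-- the two-sided orbit -/
def orb {X : Type} (F B : X → X) (x : X) (k : ℤ) : X :=
  if 0 ≤ k then F^[k.toNat] x else B^[(-k).toNat] x

lemma orb_zero {X : Type} (F B : X → X) (x : X) : orb F B x 0 = x := by
  simp [orb]

lemma orb_succ {X : Type} (F B : X → X) (x : X) {k : ℤ} (hk : 0 < k) :
    orb F B x k = F (orb F B x (k - 1)) := by
  unfold orb
  rw [if_pos hk.le, if_pos (by omega)]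
  have e : k.toNat = (k - 1).toNat + 1 := by omega
  rw [e, Function.iterate_succ_apply']

lemma orb_pred {X : Type} (F B : X → X) (x : X) {k : ℤ} (hk : k ≤ 0) :
    orb F B x (k - 1) = B (orb F B x k) := by
  unfold orb
  rw [if_neg (by omega)]
  have e : (-(k - 1)).toNat = (-k).toNat + 1 := by omega
  rw [e, Function.iterate_succ_apply']
  by_cases h0 : 0 ≤ k
  · have hk0 : k = 0 := le_antisymm hk h0
    subst hk0
    simp
  · rw [if_neg h0]

lemma orb_top {X : Type} (F B : X → X) {m p : ℕ} (h : ∀ k, m ≤ k → ∀ x, F^[k + p] x = F^[k] x)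
    (x : X) (k : ℤ) (hk : (m : ℤ) ≤ k) : orb F B x (k + p) = orb F B x k := by
  unfold orb
  rw [if_pos (by omega), if_pos (by omega)]
  have e : (k + p).toNat = k.toNat + p := by omega
  rw [e, h _ (by omega)]

lemma orb_bot {X : Type} (F B : X → X) {m p : ℕ} (h : ∀ k, m ≤ k → ∀ x, B^[k + p] x = B^[k] x)
    (x : X) (k : ℤ) (hk : k ≤ -(m : ℤ) - 1) : orb F B x (k - p) = orb F B x k := by
  unfold orb
  rw [if_neg (by omega), if_neg (by omega)]
  have e : (-(k - p)).toNat = (-k).toNat + p := by omega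
  rw [e, h _ (by omega)]

/-! ### the module -/

section main

variable {X H Q : Type} [Group H] [Group Q] [MulAction Q X]

/-- the projection -/
def prQ : FW X H Q →* Q := (MonoidHom.snd _ _).comp (FW X H Q).subtype

lemma p_one {w : FW X H Q} (h1 : w.1.2 = 1) : w.1.1.p = 1 := by
  rw [w.2.1, h1]
  ext x
  simp

lemma conj_s (g e : FW X H Q) (he : e.1.1.p = 1) (x : X) :
    (g * e * g⁻¹).1.1.s x = g.1.1.s (g.1.2⁻¹ • x) * e.1.1.s (g.1.2⁻¹ • x) *
      (g.1.1.s (g.1.2⁻¹ • x))⁻¹ := by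
  have hinv : g.1.1.p⁻¹ x = g.1.2⁻¹ • x := by
    rw [Equiv.Perm.inv_eq_iff_eq, g.2.1]
    simp
  change (g.1.1 * e.1.1 * g.1.1⁻¹).s x = _
  rw [Wr.mul_s, Wr.mul_s, Wr.inv_s, Wr.inv_p, he, hinv, Equiv.Perm.one_apply]

lemma conj_p (g e : FW X H Q) (he : e.1.1.p = 1) : (g * e * g⁻¹).1.1.p = 1 := by
  change (g.1.1 * e.1.1 * g.1.1⁻¹).p = 1
  rw [Wr.mul_p, Wr.mul_p, Wr.inv_p, he, mul_one, mul_inv_cancel]

theorem realized (hEP : S_EP) (C : ∀ (G : Type) [Group G], Prop) (hC : ClosedE C) (hH : C H)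
    (g : FW X H Q) (E : Set (FW X H Q)) (hE : E.Finite) (hEN' : ∀ e ∈ E, e.1.2 = 1) :
    Realized C g E := by
  classical
  have hEN : ∀ e ∈ E, e.1.1.p = 1 := fun e he => p_one (hEN' e he)
  -- the colours
  let I : Set (FW X H Q) := insert g E
  have hI : Finite I := hE.insert g
  let lam : X → (I → H) := fun x i => i.1.1.1.s x
  have hlam : (Set.range lam).Finite := by
    refine Set.Finite.subset (Set.Finite.pi' fun i : I => i.1.2.2) ?_
    rintro _ ⟨x, rfl⟩ i
    exact ⟨x, rfl⟩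
  have hlfin : Finite (Set.range lam) := hlam
  let τ : Set.range lam → X := Function.surjInv Set.rangeFactorization_surjective
  have hτ : ∀ r : Set.range lam, lam (τ r) = r := fun r =>
    congrArg Subtype.val (Function.surjInv_eq Set.rangeFactorization_surjective r)
  let σ : X → X := fun x => τ ⟨lam x, x, rfl⟩
  have hσ : ∀ x, lam (σ x) = lam x := fun x => hτ _
  have hσfin : (Set.range σ).Finite := (Set.finite_range τ).subset (by
    rintro _ ⟨x, rfl⟩
    exact ⟨_, rfl⟩)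
  let q : Q := g.1.2
  let F : X → X := fun x => q • σ x
  let B : X → X := fun x => σ (q⁻¹ • x)
  have hF : (Set.range F).Finite := (hσfin.image (q • ·)).subset (by
    rintro _ ⟨x, rfl⟩
    exact ⟨_, ⟨x, rfl⟩, rfl⟩)
  have hB : (Set.range B).Finite := hσfin.subset (by
    rintro _ ⟨x, rfl⟩
    exact ⟨_, rfl⟩)
  obtain ⟨m₁, p₁, hp₁, hm₁⟩ := iter_per F hF
  obtain ⟨m₂, p₂, hp₂, hm₂⟩ := iter_per B hB
  let p : ℕ := p₁ * p₂
  have hp : 0 < p := Nat.mul_pos hp₁ hp₂
  have hm₁' : ∀ k, m₁ ≤ k → ∀ x, F^[k + p] x = F^[k] x := fun k hk x =>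
    iter_per_mul hm₁ p₂ k hk x
  have hm₂' : ∀ k, m₂ ≤ k → ∀ x, B^[k + p] x = B^[k] x := fun k hk x => by
    have h1 := iter_per_mul hm₂ p₁ k hk x
    rwa [mul_comm] at h1
  -- the orbits
  let ξ : X → ℤ → X := orb F B
  have hξ : ∀ x k, lam (q⁻¹ • ξ x k) = lam (ξ x (k - 1)) := by
    intro x k
    rcases lt_or_ge 0 k with hk | hk
    · have h1 : ξ x k = q • σ (ξ x (k - 1)) := orb_succ F B x hk
      rw [h1, inv_smul_smul, hσ]
    · have h1 : ξ x (k - 1) = σ (q⁻¹ • ξ x k) := orb_pred F B x hk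
      rw [h1, hσ]
  have hev : ∀ (ψ : X → H) (x : X) (e : Equiv.Perm ℤ) (n : ℤ), (∀ k, e k = k + n) →
      EPer p (⟨fun k => ψ (ξ x k), e⟩ : Wr ℤ H) := by
    intro ψ x e n he
    refine ⟨⟨n, he⟩, evper_top hp (m := m₁) fun k hk => ?_,
      evper_bot hp (m := -(m₂ : ℤ) - 1) fun k hk => ?_⟩
    · exact congrArg ψ (orb_top F B hm₁' x k hk)
    · exact congrArg ψ (orb_bot F B hm₂' x k hk)
  -- representatives
  let mu : X → (I → H) × (I → H) := fun x => (lam (q⁻¹ • x), lam x)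
  have hmu : (Set.range mu).Finite := (hlam.prod hlam).subset (by
    rintro _ ⟨x, rfl⟩
    exact ⟨⟨_, rfl⟩, ⟨_, rfl⟩⟩)
  have hmfin : Finite (Set.range mu) := hmu
  let τ₂ : Set.range mu → X := Function.surjInv Set.rangeFactorization_surjective
  have hτ₂ : ∀ r : Set.range mu, mu (τ₂ r) = r := fun r =>
    congrArg Subtype.val (Function.surjInv_eq Set.rangeFactorization_surjective r)
  have hCL : C (EL p H) := hEP C hC p H (EL p H) hp hH (EL p H).subtype
    (EL p H).subtype_injective fun x => x.2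
  have hCP : C (Set.range mu → EL p H) := Pool.Agent.Y812.SS.C_pow hC.base _ _ hCL
  -- elements of the closure
  have hcl2 : ∀ w ∈ Subgroup.closure (E ∪ (fun x => g * x * g⁻¹) '' E), w.1.2 = 1 := by
    intro w hw
    have h1 : Subgroup.closure (E ∪ (fun x => g * x * g⁻¹) '' E) ≤
        (prQ (X := X) (H := H) (Q := Q)).ker := by
      rw [Subgroup.closure_le]
      rintro w (hw | ⟨e, he, rfl⟩)
      · exact hEN' w hw
      · have h2 : e ∈ (prQ (X := X) (H := H) (Q := Q)).ker := hEN' e he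
        exact (inferInstance : (prQ (X := X) (H := H) (Q := Q)).ker.Normal).conj_mem e h2 g
    exact h1 hw
  have hcl : ∀ w ∈ Subgroup.closure (E ∪ (fun x => g * x * g⁻¹) '' E), w.1.1.p = 1 ∧
      ∀ x x', mu x = mu x' → w.1.1.s x = w.1.1.s x' := by
    intro w hw
    induction hw using Subgroup.closure_induction with
    | mem w hw =>
      rcases hw with hw | ⟨e, he, rfl⟩
      · refine ⟨hEN w hw, fun x x' hx => ?_⟩
        have h1 : lam x = lam x' := congrArg Prod.snd hx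
        exact congrFun h1 ⟨w, Set.mem_insert_of_mem _ hw⟩
      · refine ⟨conj_p g e (hEN e he), fun x x' hx => ?_⟩
        have h1 : lam (q⁻¹ • x) = lam (q⁻¹ • x') := congrArg Prod.fst hx
        have h2 : e.1.1.s (g.1.2⁻¹ • x) = e.1.1.s (g.1.2⁻¹ • x') :=
          congrFun h1 ⟨e, Set.mem_insert_of_mem _ he⟩
        have h3 : g.1.1.s (g.1.2⁻¹ • x) = g.1.1.s (g.1.2⁻¹ • x') :=
          congrFun h1 ⟨g, Set.mem_insert _ _⟩
        rw [conj_s g e (hEN e he), conj_s g e (hEN e he), h2, h3]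
    | one => exact ⟨rfl, fun _ _ _ => rfl⟩
    | mul a b _ _ ha hb =>
      refine ⟨?_, fun x x' hx => ?_⟩
      · change (a.1.1 * b.1.1).p = 1
        rw [Wr.mul_p, ha.1, hb.1, mul_one]
      · change (a.1.1 * b.1.1).s x = (a.1.1 * b.1.1).s x'
        rw [Wr.mul_s, Wr.mul_s, hb.1, Equiv.Perm.one_apply, Equiv.Perm.one_apply, ha.2 x x' hx,
          hb.2 x x' hx]
    | inv a _ ha =>
      refine ⟨?_, fun x x' hx => ?_⟩
      · change (a.1.1⁻¹).p = 1
        rw [Wr.inv_p, ha.1, inv_one]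
      · change (a.1.1⁻¹).s x = (a.1.1⁻¹).s x'
        rw [Wr.inv_s, Wr.inv_s, ha.1, inv_one, Equiv.Perm.one_apply, Equiv.Perm.one_apply,
          ha.2 x x' hx]
  let f : ↥(Subgroup.closure (E ∪ (fun x => g * x * g⁻¹) '' E)) →* (Set.range mu → EL p H) :=
    { toFun := fun w r => ⟨⟨fun k => w.1.1.1.s (ξ (τ₂ r) k), 1⟩,
        hev _ _ 1 0 fun k => by simp⟩
      map_one' := by
        funext r
        apply Subtype.ext
        rfl
      map_mul' := by
        intro a b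
        funext r
        apply Subtype.ext
        apply Wr.ext
        · funext k
          change (a.1.1.1 * b.1.1.1).s (ξ (τ₂ r) k) = _
          rw [Wr.mul_s, (hcl b.1 b.2).1]
          rfl
        · rfl }
  refine ⟨_, inferInstance, f, fun r => ⟨⟨fun k => g.1.1.s (ξ (τ₂ r) k), Equiv.addRight 1⟩,
    hev _ _ _ 1 fun k => rfl⟩, hCP, ?_, ?_⟩
  · rw [injective_iff_map_eq_one]
    intro w hw
    have h1 : ∀ x, w.1.1.1.s x = 1 := by
      intro x
      have h2 : mu x = mu (τ₂ ⟨mu x, x, rfl⟩) := (hτ₂ ⟨mu x, x, rfl⟩).symm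
      rw [(hcl w.1 w.2).2 _ _ h2]
      have h3 := congrFun hw ⟨mu x, x, rfl⟩
      have h4 := congrArg (fun a : EL p H => a.1.s 0) h3
      change w.1.1.1.s (ξ (τ₂ ⟨mu x, x, rfl⟩) 0) = 1 at h4
      have h5 : ξ (τ₂ ⟨mu x, x, rfl⟩) 0 = τ₂ ⟨mu x, x, rfl⟩ := orb_zero F B _
      rw [h5] at h4
      exact h4
    apply Subtype.ext
    apply Subtype.ext
    refine Prod.ext (Wr.ext (funext h1) (hcl w.1 w.2).1) (hcl2 w.1 w.2)
  · intro x y hx hy
    funext r
    apply Subtype.ext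
    have hfx : (f x r).1.p = 1 := rfl
    apply Wr.ext
    · funext k
      change y.1.1.1.s (ξ (τ₂ r) k) = _
      have h1 : lam (q⁻¹ • ξ (τ₂ r) k) = lam (ξ (τ₂ r) (k - 1)) := hξ _ _
      have h2 : x.1.1.1.s (g.1.2⁻¹ • ξ (τ₂ r) k) = x.1.1.1.s (ξ (τ₂ r) (k - 1)) :=
        congrFun h1 ⟨x.1, Set.mem_insert_of_mem _ hx⟩
      have h3 : g.1.1.s (g.1.2⁻¹ • ξ (τ₂ r) k) = g.1.1.s (ξ (τ₂ r) (k - 1)) :=
        congrFun h1 ⟨g, Set.mem_insert _ _⟩
      rw [hy, conj_s g x.1 (hEN x.1 hx), h2, h3]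
      have h4 : (Equiv.addRight (1 : ℤ))⁻¹ k = k - 1 := by
        rw [Equiv.Perm.inv_eq_iff_eq]
        simp
      change _ = ((⟨fun k => g.1.1.s (ξ (τ₂ r) k), Equiv.addRight 1⟩ : Wr ℤ H) * (f x r).1 *
        (⟨fun k => g.1.1.s (ξ (τ₂ r) k), Equiv.addRight 1⟩ : Wr ℤ H)⁻¹).s k
      rw [Wr.mul_s, Wr.mul_s, Wr.inv_s, Wr.inv_p, hfx, Equiv.Perm.one_apply, h4]
      rfl
    · change (1 : Equiv.Perm ℤ) = ((⟨fun k => g.1.1.s (ξ (τ₂ r) k), Equiv.addRight 1⟩ : Wr ℤ H) *
        (f x r).1 * (⟨fun k => g.1.1.s (ξ (τ₂ r) k), Equiv.addRight 1⟩ : Wr ℤ H)⁻¹).p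
      rw [Wr.mul_p, Wr.mul_p, Wr.inv_p, hfx, mul_one, mul_inv_cancel]

end main

theorem t_FW (h : S_EP) : S_FW := by
  intro C hC X H Q _ _ _ hH hQ
  have hcrit := Pool.Agent.R779.FJ.t_crit Pool.Agent.Y529.FJ.t_ext
    (Pool.Agent.Y961.FJ.t_perm Pool.Agent.Y529.FJ.t_ext) C hC
  refine hcrit (FW X H Q) (prQ (X := X) (H := H) (Q := Q)).ker ?_ ?_
  · exact hC.base.of_injective _ Q (QuotientGroup.kerLift _) (QuotientGroup.kerLift_injective _) hQ
  · intro g E hE hEN
    exact realized h C hC hH g E hE fun e he => hEN he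

end Pool.Agent.J6H94.AR
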