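import Pool.Agent.J6H36.AR.Defs2

/-!
# The groupoid of the simple roots is generated by dihedral moves; labels of pairs of roots

Modules S_KEY and S_LAB of helper36 (MP_e40716_gt).
-/

set_option autoImplicit false

namespace Pool.Agent.J6H94.AR

open CoxeterSystem
open Pool.Agent.R676.Cox
open Pool.Agent.J6H36.AR
open Pool.Agent.Helper741 (qs cc qs_nonneg qs_sin sin_pos_of_ne qs_of_one cc_of_zero)

/-- the positive coefficients -/
lemma qs_pos {B : Type} (M : CoxeterMatrix B) {i j : B} (h : i ≠ j) {k : ℕ} (h1 : 1 ≤ k)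
    (hk : M i j = 0 ∨ k < M i j) : 0 < qs (cc M i j) k := by
  by_cases h0 : M i j = 0
  · rw [cc_of_zero M h0, qs_of_one]
    exact_mod_cast h1
  · have hk' : k < M i j := hk.resolve_left h0
    have hs := sin_pos_of_ne M h h0
    have hm : (0 : ℝ) < (M i j : ℝ) := by exact_mod_cast (by omega : 0 < M i j)
    have hk0 : (0 : ℝ) < (k : ℝ) := by exact_mod_cast h1
    have h2 : 0 < Real.sin (k * (Real.pi / (M i j : ℝ))) := by
      apply Real.sin_pos_of_pos_of_lt_pi
      · have := Real.pi_pos
        positivity
      · have : (k : ℝ) < (M i j : ℝ) := by exact_mod_cast hk'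
        rw [mul_div_assoc', div_lt_iff₀ hm]
        nlinarith [Real.pi_pos]
    rw [← qs_sin] at h2
    exact (pos_iff_pos_of_mul_pos h2).2 hs

lemma qs_end {B : Type} (M : CoxeterMatrix B) {i j : B} (h : i ≠ j) {k : ℕ}
    (hk : k + 1 = M i j) : qs (cc M i j) (k + 1) = 0 ∧ qs (cc M i j) k = 1 := by
  have h0 : M i j ≠ 0 := by omega
  have hs := sin_pos_of_ne M h h0
  have hm : (M i j : ℝ) ≠ 0 := by exact_mod_cast h0
  have h1 := qs_sin (Real.pi / (M i j : ℝ)) (k + 1)
  have h2 := qs_sin (Real.pi / (M i j : ℝ)) k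
  have h3 : ((k + 1 : ℕ) : ℝ) * (Real.pi / (M i j : ℝ)) = Real.pi := by
    rw [hk]
    field_simp
  have h4 : (k : ℝ) * (Real.pi / (M i j : ℝ)) = Real.pi - Real.pi / (M i j : ℝ) := by
    have h5 : ((k + 1 : ℕ) : ℝ) = (k : ℝ) + 1 := by push_cast; ring
    rw [h5] at h3
    linarith
  rw [h3, Real.sin_pi] at h1
  rw [h4, Real.sin_pi_sub] at h2
  refine ⟨(mul_eq_zero.mp h1).resolve_right hs.ne', ?_⟩
  have h6 : (qs (Real.cos (Real.pi / (M i j : ℝ))) k - 1) * Real.sin (Real.pi / (M i j : ℝ)) = 0 := by
    rw [sub_mul, one_mul]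
    exact sub_eq_zero.mpr h2
  have := (mul_eq_zero.mp h6).resolve_right hs.ne'
  unfold cc
  linarith

/-- two nonnegative vectors with a positive combination equal to a simple root -/
lemma supp_one {B : Type} {a b : ℝ} (ha : 0 < a) (hb : 0 < b) {u v : B →₀ ℝ} (hu : 0 ≤ u)
    (hv : 0 ≤ v) {t : B} (h : a • u + b • v = ee t) : u = u t • ee t ∧ v = v t • ee t := by
  classical
  have key : ∀ x, x ≠ t → u x = 0 ∧ v x = 0 := by
    intro x hx
    have h1 := DFunLike.congr_fun h x
    rw [Finsupp.add_apply, Finsupp.smul_apply, Finsupp.smul_apply, ee, Finsupp.single_apply,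
      if_neg (Ne.symm hx), smul_eq_mul, smul_eq_mul] at h1
    have h2 : 0 ≤ u x := hu x
    have h3 : 0 ≤ v x := hv x
    have h4 : 0 ≤ a * u x := by positivity
    have h5 : 0 ≤ b * v x := by positivity
    have h6 : a * u x = 0 := by linarith
    have h7 : b * v x = 0 := by linarith
    exact ⟨(mul_eq_zero.1 h6).resolve_left ha.ne', (mul_eq_zero.1 h7).resolve_left hb.ne'⟩
  constructor
  · ext x
    by_cases hx : x = t
    · subst hx; simp [ee]
    · rw [(key x hx).1]
      simp [ee, Ne.symm hx]
  · ext x
    by_cases hx : x = t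
    · subst hx; simp [ee]
    · rw [(key x hx).2]
      simp [ee, Ne.symm hx]

lemma ee_inj {B : Type} {s t : B} (h : (ee s : B →₀ ℝ) = ee t) : s = t :=
  Finsupp.single_left_injective one_ne_zero h

theorem t_KEY : S_KEY := by
  intro B W G _ _ M cs τ σ H w s t h
  classical
  induction hn : cs.length w using Nat.strong_induction_on generalizing w s t with
  | _ n ih =>
  by_cases hw : w = 1
  · subst hw
    rw [map_one, Module.End.one_apply] at h
    rw [ee_inj h]
    simp
  obtain ⟨j, hj⟩ := cs.exists_rightDescent_of_ne_one hw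
  have hj' : cs.length (w * cs.simple j) + 1 = cs.length w := cs.isRightDescent_iff.mp hj
  have hpos : cs.length w < cs.length (w * cs.simple s) := by
    rw [← geo_nonneg_iff, h]
    exact ee_nonneg t
  have hij : s ≠ j := by
    rintro rfl
    omega
  set P : ℕ → Prop := fun k =>
    ∃ v : W, w = v * cs.wordProd (alternatingWord s j k) ∧ cs.length w = cs.length v + k with hP
  have hP1 : P 1 := by
    refine ⟨w * cs.simple j, ?_, by omega⟩
    simp [alternatingWord]
  have hw1 : 1 ≤ cs.length w := by omega
  obtain ⟨k, hk1, hkP, hkmax⟩ : ∃ k, 1 ≤ k ∧ P k ∧ ¬ P (k + 1) := by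
    refine ⟨Nat.findGreatest P (cs.length w), ?_, ?_, ?_⟩
    · exact Nat.le_findGreatest hw1 hP1
    · exact Nat.findGreatest_spec hw1 hP1
    · intro hcon
      have : Nat.findGreatest P (cs.length w) + 1 ≤ cs.length w := by
        obtain ⟨v, _, hv⟩ := hcon
        omega
      have := Nat.le_findGreatest this hcon
      omega
  obtain ⟨v, hv, hvl⟩ := hkP
  obtain ⟨k', rfl⟩ : ∃ k', k = k' + 1 := ⟨k - 1, by omega⟩
  have hg : cs.length v < cs.length (v * cs.simple (if Even (k' + 1) then j else s)) := by
    by_contra hcon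
    have hlt : cs.length (v * cs.simple (if Even (k' + 1) then j else s)) + 1 = cs.length v := by
      rcases cs.length_mul_simple v (if Even (k' + 1) then j else s) with h1 | h1 <;> omega
    apply hkmax
    refine ⟨v * cs.simple (if Even (k' + 1) then j else s), ?_, by omega⟩
    rw [alternatingWord_succ', cs.wordProd_cons, ← mul_assoc, cs.simple_mul_simple_cancel_right]
    exact hv
  have hf : cs.length v < cs.length (v * cs.simple (if Even k' then j else s)) := by
    by_contra hcon
    have hlt : cs.length (v * cs.simple (if Even k' then j else s)) + 1 = cs.length v := by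
      rcases cs.length_mul_simple v (if Even k' then j else s) with h1 | h1 <;> omega
    have hv2 := hv
    rw [alternatingWord_succ', cs.wordProd_cons, ← mul_assoc] at hv2
    have h2 := cs.length_mul_le (v * cs.simple (if Even k' then j else s))
      (cs.wordProd (alternatingWord s j k'))
    rw [← hv2] at h2
    have h3 := cs.length_wordProd_le (alternatingWord s j k')
    rw [length_alternatingWord] at h3
    omega
  have hvi : cs.length v < cs.length (v * cs.simple s) := by
    by_cases he : Even k'
    · have : ¬ Even (k' + 1) := by simpa [Nat.even_add_one] using he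
      simpa [this] using hg
    · simpa [he] using hf
  have hvj : cs.length v < cs.length (v * cs.simple j) := by
    by_cases he : Even k'
    · simpa [he] using hf
    · have : Even (k' + 1) := by simpa [Nat.even_add_one] using he
      simpa [this] using hg
  have hi0 := geo_nonneg cs v s hvi
  have hj0 := geo_nonneg cs v j hvj
  have hkm : M s j = 0 ∨ k' + 1 < M s j := by
    by_contra hcon
    push Not at hcon
    obtain ⟨h0, hm⟩ := hcon
    have hred : cs.IsReduced (alternatingWord s j (k' + 1)) := by
      have h2 := cs.length_mul_le v (cs.wordProd (alternatingWord s j (k' + 1)))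
      rw [← hv] at h2
      have h3 := cs.length_wordProd_le (alternatingWord s j (k' + 1))
      unfold CoxeterSystem.IsReduced
      rw [length_alternatingWord] at h3 ⊢
      omega
    have hle : ¬ (k' + 1 > M s j) := fun hgt => cs.not_isReduced_alternatingWord s j h0 hgt hred
    have heq : k' + 1 = M s j := by omega
    have hb := cs.wordProd_braidWord_eq s j
    unfold braidWord at hb
    rw [M.symmetric j s, ← heq, alternatingWord_succ j s, cs.wordProd_concat] at hb
    have hv2 := hv
    rw [hb, ← mul_assoc] at hv2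
    rw [hv2, cs.simple_mul_simple_cancel_right] at hpos
    have h2 := cs.length_mul_le v (cs.wordProd (alternatingWord s j k'))
    have h3 := cs.length_wordProd_le (alternatingWord s j k')
    rw [length_alternatingWord] at h3
    rw [← hv2] at hpos
    omega
  have hw2 : geo cs w (ee s) =
      if Even (k' + 1) then qs (cc M s j) (k' + 2) • geo cs v (ee s) +
        qs (cc M s j) (k' + 1) • geo cs v (ee j)
      else qs (cc M s j) (k' + 2) • geo cs v (ee j) + qs (cc M s j) (k' + 1) • geo cs v (ee s) := by
    conv_lhs => rw [hv]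
    rw [map_mul, Module.End.mul_apply, geo_wordProd, prod_alt_ee]
    split_ifs <;> rw [map_add, map_smul, map_smul]
  have hqp : 0 < qs (cc M s j) (k' + 1) := qs_pos M hij (by omega) hkm
  -- the last step
  have hend : k' + 2 = M s j := by
    by_contra hne
    have hq2 : 0 < qs (cc M s j) (k' + 2) := qs_pos M hij (by omega) (by omega)
    have hPs : PR cs (geo cs v (ee s)) := ⟨⟨v, s, rfl⟩, hi0⟩
    have hPj : PR cs (geo cs v (ee j)) := ⟨⟨v, j, rfl⟩, hj0⟩
    have hfin : geo cs v (ee s) = ee t ∧ geo cs v (ee j) = ee t := by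
      rw [hw2] at h
      split_ifs at h
      · obtain ⟨e1, e2⟩ := supp_one hq2 hqp hi0 hj0 h
        exact ⟨hPs.eq_of_smul (PR_ee cs t) e1, hPj.eq_of_smul (PR_ee cs t) e2⟩
      · obtain ⟨e1, e2⟩ := supp_one hq2 hqp hj0 hi0 h
        exact ⟨hPs.eq_of_smul (PR_ee cs t) e2, hPj.eq_of_smul (PR_ee cs t) e1⟩
    exact hij (ee_inj (geo_injective_apply cs v (hfin.1.trans hfin.2.symm)))
  obtain ⟨q0, q1⟩ := qs_end M hij (k := k' + 1) hend
  have hM0 : M s j ≠ 0 := by omega
  have hx : geo cs v (ee (if Even (M s j) then s else j)) = ee t := by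
    have q0' : qs (cc M s j) (k' + 2) = 0 := q0
    rw [hw2] at h
    simp only [q0', q1, zero_smul, zero_add, one_smul] at h
    by_cases he : Even (k' + 1)
    · have : ¬ Even (M s j) := by rw [← hend]; simpa [Nat.even_add_one] using he
      rw [if_neg this]
      simpa [he] using h
    · have : Even (M s j) := by rw [← hend]; simpa [Nat.even_add_one] using he
      rw [if_pos this]
      simpa [he] using h
  have h1 := ih (cs.length v) (by omega) v _ t hx rfl
  have h2 := H s j hij hM0
  rw [show M s j - 1 = k' + 1 by omega] at h2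
  rw [← h2] at h1
  rw [← h1, hv, map_mul]
  group

theorem t_LAB : S_LAB := by
  intro B W _ M cs β γ w i j hβ hγ
  classical
  have hex : ∃ p : W × B × B, β.1 = geo cs p.1 (ee p.2.1) ∧ γ.1 = geo cs p.1 (ee p.2.2) :=
    ⟨(w, i, j), hβ, hγ⟩
  unfold lab
  rw [dif_pos hex]
  obtain ⟨h1, h2⟩ := hex.choose_spec
  set p := hex.choose with hp
  have h3 : bil M (ee p.2.1) (ee p.2.2) = bil M (ee i) (ee j) := by
    rw [← bil_geo cs p.1, ← bil_geo cs w (ee i), ← h1, ← h2, ← hβ, ← hγ]
  rw [bil_ee_left, bil_ee_left, coroot_ee, coroot_ee] at h3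
  have h4 : cc M p.2.1 p.2.2 = cc M i j := by linarith
  unfold cc at h4
  have hr : ∀ m : ℕ, Real.pi / (m : ℝ) ∈ Set.Icc 0 Real.pi := by
    intro m
    rcases Nat.eq_zero_or_pos m with rfl | hm
    · simp [Real.pi_pos.le]
    · refine ⟨by have := Real.pi_pos; positivity, ?_⟩
      exact div_le_self Real.pi_pos.le (by exact_mod_cast hm)
  have h5 := Real.injOn_cos (hr _) (hr _) h4
  rw [div_eq_mul_inv, div_eq_mul_inv] at h5
  have h6 := mul_left_cancel₀ Real.pi_ne_zero h5
  exact_mod_cast inv_injective h6

end Pool.Agent.J6H94.AR
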